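import Pool.Agent.H308R2.PPL.Main
set_option autoImplicit false

/-!
# The prefix palindromic length of the Fibonacci word is not Fibonacci-regular

Question Q2 of the problem, answered in the negative.

Idea.  Write the Fibonacci word as a mechanical word and let `st j k = k + ψ j` (`ψ` the conjugate
of the golden ratio).  A palindrome occurring between the positions `y' < y` is a central symmetry
`(j, k) ↦ (y + y' - j, κ - k)` of the lattice for which no lattice point of the window has `st`
strictly between `0` and `st (y + y') κ`.  Following the very good approximations (lattice points
`(j, k)` near `y` with `(|y - j| + 1) * |st j k|` tiny) through such symmetries shows that the number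
of equal neighbours in a certain sign sequence drops by at most one with each palindrome, so that
`PPL (fib n₁ + ⋯ + fib n_m) ≥ 2 m` when the indices are even and far apart (and from `0`).  On the
other hand, for `a` odd and `n_m = 2 m + 2` one palindrome can be saved:
`PPL (fib n₁ + ⋯ + fib n_m) ≤ 2 m - 1`.  In a matrix representation, the value along
`1 0^a` is a bounded linear recurrent sequence in `a`, hence periodic from an index on that depends
on the matrix `M 0` only, so the blocks of zeros could be lengthened without changing the value: a
contradiction.
-/

namespace Pool.Agent.Results.MP_f91ac8_co.FibonacciWord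

open Pool.Agent.H308R2.FibPal

/-- The Fibonacci word exists, and its prefix palindromic length is not Fibonacci-regular, neither
over the integers nor over any commutative ring of characteristic zero. -/
theorem result :
    (∃ f : ℕ → Bool, IsFibonacciWord f) ∧
    ∀ f : ℕ → Bool, IsFibonacciWord f →
      ¬ IsFibonacciRegular ℤ (fun n => (PPL f n : ℤ)) ∧
      ∀ (K : Type) [CommRing K] [CharZero K],
        ¬ IsFibonacciRegular K (fun n => (PPL f n : ℤ)) := by
  refine ⟨⟨mw, mw_fixed⟩, ?_⟩
  intro f hf
  have e : (fun n => (PPL f n : ℤ)) = fun n => (PPL mw n : ℤ) := by
    funext n
    rw [ppl_congr (fib_unique hf mw_fixed) n]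
  rw [e]
  exact ⟨mw_not_regular_ring ℤ, fun K _ _ => mw_not_regular_ring K⟩

end Pool.Agent.Results.MP_f91ac8_co.FibonacciWord
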